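import Pool.Agent.U324.LC.FT

/-!
Project LC, job Decay.
-/

set_option autoImplicit false

open MeasureTheory Filter Topology Set

namespace Pool.Agent.U324.LC

theorem lorL {A B : ℝ} (hA : 0 < A) (hB : 0 < B) (c : ℝ) :
    ∫⁻ η : ℝ, ENNReal.ofReal (((A * (η - c)) ^ 2 + B ^ 2)⁻¹) =
      ENNReal.ofReal (Real.pi / (A * B)) := by
  obtain ⟨h1, h2⟩ := lor hA hB c
  rw [← h2, ofReal_integral_eq_lintegral_ofReal h1 (ae_of_all _ fun η => by positivity)]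

theorem quart (M : ℝ) {N : ℝ} (hN : 0 < N) :
    ∫⁻ η : ℝ, ENNReal.ofReal (((4 * Real.pi ^ 2 * η ^ 2 - M) ^ 2 + N ^ 2)⁻¹) ≤
      ENNReal.ofReal (3 / (N * √(max M N))) := by
  rcases le_or_gt M N with h | h
  · rw [max_eq_right h]
    have hsN : 0 < √N := Real.sqrt_pos.2 hN
    calc _ ≤ ∫⁻ η : ℝ, ENNReal.ofReal ((6 / N) * ((2 * Real.pi * (η - 0)) ^ 2 + (√N) ^ 2)⁻¹) := by
          refine lintegral_mono fun η => ENNReal.ofReal_le_ofReal ?_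
          have e1 : (2 * Real.pi * (η - 0)) ^ 2 + (√N) ^ 2 = 4 * Real.pi ^ 2 * η ^ 2 + N := by
            rw [Real.sq_sqrt hN.le]; ring
          rw [e1]
          have hx0 : 0 ≤ 4 * Real.pi ^ 2 * η ^ 2 := by positivity
          generalize 4 * Real.pi ^ 2 * η ^ 2 = x at hx0 ⊢
          have e2 : 6 / N * (x + N)⁻¹ = (N * (x + N) / 6)⁻¹ := by
            have : x + N ≠ 0 := by positivity
            field_simp
          rw [e2]
          refine inv_anti₀ (by positivity) ?_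
          have h3 : x ^ 2 + N ^ 2 ≤ 3 * ((x - M) ^ 2 + N ^ 2) := by
            by_cases hM : -N ≤ M
            · have : M ^ 2 ≤ N ^ 2 := by nlinarith
              nlinarith [sq_nonneg (x - 2 * M)]
            · push Not at hM
              nlinarith
          nlinarith [sq_nonneg (x - N)]
      _ = ENNReal.ofReal (6 / N * (Real.pi / (2 * Real.pi * √N))) := by
          have h6 : 0 ≤ 6 / N := by positivity
          simp_rw [ENNReal.ofReal_mul h6]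
          rw [lintegral_const_mul' _ _ ENNReal.ofReal_ne_top, lorL (by positivity) hsN]
      _ ≤ _ := by
          refine ENNReal.ofReal_le_ofReal (le_of_eq ?_)
          have := Real.pi_pos.ne'
          field_simp
          norm_num
  · rw [max_eq_left h.le]
    have hM : 0 < M := hN.trans h
    have hsM : 0 < √M := Real.sqrt_pos.2 hM
    have hs : √M ^ 2 = M := Real.sq_sqrt hM.le
    have hpi := Real.pi_pos
    calc _ ≤ ∫⁻ η : ℝ, (ENNReal.ofReal (((2 * Real.pi * √M * (η - √M / (2 * Real.pi))) ^ 2 + N ^ 2)⁻¹)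
            + ENNReal.ofReal (((2 * Real.pi * √M * (η - -(√M / (2 * Real.pi)))) ^ 2 + N ^ 2)⁻¹)) := by
          refine lintegral_mono fun η => ?_
          have key : (4 * Real.pi ^ 2 * η ^ 2 - M) ^ 2 =
              (2 * Real.pi * η - √M) ^ 2 * (2 * Real.pi * η + √M) ^ 2 := by
            rw [← mul_pow]
            congr 1
            rw [← hs]
            simp only [Real.sqrt_sq hsM.le]
            ring
          rcases le_total 0 η with hη | hη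
          · refine le_trans (ENNReal.ofReal_le_ofReal ?_) le_self_add
            refine inv_anti₀ (by positivity) ?_
            have e : (2 * Real.pi * √M * (η - √M / (2 * Real.pi))) ^ 2 =
                (2 * Real.pi * η - √M) ^ 2 * √M ^ 2 := by
              field_simp
            rw [e, key]
            have : √M ^ 2 ≤ (2 * Real.pi * η + √M) ^ 2 := by
              have : 0 ≤ 2 * Real.pi * η := by positivity
              nlinarith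
            nlinarith [mul_le_mul_of_nonneg_left this (sq_nonneg (2 * Real.pi * η - √M))]
          · refine le_trans (ENNReal.ofReal_le_ofReal ?_) le_add_self
            refine inv_anti₀ (by positivity) ?_
            have e : (2 * Real.pi * √M * (η - -(√M / (2 * Real.pi)))) ^ 2 =
                (2 * Real.pi * η + √M) ^ 2 * √M ^ 2 := by
              field_simp
              ring
            rw [e, key]
            have : √M ^ 2 ≤ (2 * Real.pi * η - √M) ^ 2 := by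
              have : 2 * Real.pi * η ≤ 0 := mul_nonpos_of_nonneg_of_nonpos (by positivity) hη
              nlinarith
            nlinarith [mul_le_mul_of_nonneg_left this (sq_nonneg (2 * Real.pi * η + √M))]
      _ = ENNReal.ofReal (Real.pi / (2 * Real.pi * √M * N)) +
            ENNReal.ofReal (Real.pi / (2 * Real.pi * √M * N)) := by
          rw [lintegral_add_left (by fun_prop), lorL (by positivity) hN, lorL (by positivity) hN]
      _ ≤ _ := by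
          rw [← ENNReal.ofReal_add (by positivity) (by positivity)]
          refine ENNReal.ofReal_le_ofReal ?_
          have e : Real.pi / (2 * Real.pi * √M * N) + Real.pi / (2 * Real.pi * √M * N) =
              1 / (N * √M) := by
            field_simp
            norm_num
          rw [e]
          gcongr
          norm_num

/-- the pointwise bound -/
theorem ptw {θ lam τ p η : ℝ} (hθ : 0 < θ) (hτ : 1 ≤ τ) (hlam : |lam| ≤ θ ^ 2 * τ ^ 2 / 4)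
    (hp : 1 / 2 ≤ |p|) :
    (1 + (p - 1 / 2) ^ 2 + η ^ 2) ^ (3 / 4 : ℝ) /
        ((4 * Real.pi ^ 2 * η ^ 2 - (θ ^ 2 * τ ^ 2 + lam - θ ^ 2 * p ^ 2)) ^ 2 +
          (2 * θ ^ 2 * τ * |p|) ^ 2) ≤
      (16 / 9 * (8 / θ ^ 2 + 1) ^ (3 / 4 : ℝ) * θ ^ (-(1 / 4) : ℝ) *
          (θ ^ 2 * min (θ ^ 2 / 4) 1) ^ (-(9 / 16) : ℝ)) * τ ^ (-(1 / 4) : ℝ) *
          |p| ^ (-(9 / 8) : ℝ) * (1 + ‖η‖ ^ 2) ^ (-(9 / 8 : ℝ) / 2) +
        ((5 * (8 / θ ^ 2 + 1) * θ ^ 2) ^ (3 / 4 : ℝ) * 3 ^ (1 / 8 : ℝ)) * τ ^ (13 / 8 : ℝ) *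
          |p| ^ (-(1 / 8) : ℝ) *
          ((4 * Real.pi ^ 2 * η ^ 2 - (θ ^ 2 * τ ^ 2 + lam - θ ^ 2 * p ^ 2)) ^ 2 +
          (2 * θ ^ 2 * τ * |p|) ^ 2)⁻¹ := by
  have hτ0 : 0 < τ := by linarith
  have hp0 : 0 < |p| := by linarith
  have hp2 : 1 / 4 ≤ p ^ 2 := by
    have : (1 / 2 : ℝ) ^ 2 ≤ |p| ^ 2 := by gcongr
    rw [sq_abs] at this
    linarith
  obtain ⟨hl1, hl2⟩ := abs_le.1 hlam
  have hpi : 1 ≤ 4 * Real.pi ^ 2 := by nlinarith [Real.pi_gt_three]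
  set R := θ ^ 2 * p ^ 2 + 4 * Real.pi ^ 2 * η ^ 2 with hR
  set Λ := θ ^ 2 * τ ^ 2 + lam with hΛ
  have hθ2 : 0 < θ ^ 2 := by positivity
  have hτ2 : 0 < θ ^ 2 * τ ^ 2 := by positivity
  have hR0 : 0 < R := by positivity
  set S := (4 * Real.pi ^ 2 * η ^ 2 - (Λ - θ ^ 2 * p ^ 2)) ^ 2 + (2 * θ ^ 2 * τ * |p|) ^ 2 with hS
  have hS0 : 0 < S := by positivity
  have hRS : (R - Λ) ^ 2 ≤ S := by
    have e : (R - Λ) ^ 2 = (4 * Real.pi ^ 2 * η ^ 2 - (Λ - θ ^ 2 * p ^ 2)) ^ 2 := by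
      rw [hR]; ring
    rw [hS, e]
    exact le_add_of_nonneg_right (sq_nonneg _)
  set K := 8 / θ ^ 2 + 1 with hK
  have hK0 : 0 < K := by positivity
  have hrho : 1 + (p - 1 / 2) ^ 2 + η ^ 2 ≤ K * R := by
    have h1 : K * R = 8 * p ^ 2 + θ ^ 2 * p ^ 2 + K * (4 * Real.pi ^ 2 * η ^ 2) := by
      rw [hK, hR]; field_simp
    have h2 : η ^ 2 ≤ K * (4 * Real.pi ^ 2 * η ^ 2) := by
      have : 1 ≤ K := by rw [hK]; have : 0 ≤ 8 / θ ^ 2 := by positivity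
                         linarith
      have h3 : η ^ 2 ≤ 4 * Real.pi ^ 2 * η ^ 2 := le_mul_of_one_le_left (sq_nonneg η) hpi
      have h0 : 0 ≤ 4 * Real.pi ^ 2 * η ^ 2 := by positivity
      exact h3.trans (le_mul_of_one_le_left h0 this)
    have h3 : (p - 1 / 2) ^ 2 ≤ 4 * p ^ 2 := by
      have e : 4 * p ^ 2 - (p - 1 / 2) ^ 2 = 2 * p ^ 2 + (p + 1 / 2) ^ 2 - 1 / 2 := by ring
      have := sq_nonneg (p + 1 / 2)
      linarith
    have h5 : 0 < θ ^ 2 * p ^ 2 := mul_pos hθ2 (by linarith)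
    linarith
  have hrho0 : 0 < 1 + (p - 1 / 2) ^ 2 + η ^ 2 := by positivity
  set c := θ ^ 2 * min (θ ^ 2 / 4) 1 with hc
  have hm0 : 0 < min (θ ^ 2 / 4) 1 := by positivity
  have hc0 : 0 < c := by positivity
  have hw0 : 0 < 1 + ‖η‖ ^ 2 := by positivity
  have hηn : ‖η‖ ^ 2 = η ^ 2 := by rw [Real.norm_eq_abs, sq_abs]
  rcases le_or_gt (4 * Λ) R with hcase | hcase
  · -- far
    have h1 : 9 / 16 * R ^ 2 ≤ S := by
      refine le_trans ?_ hRS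
      have : 3 / 4 * R ≤ R - Λ := by linarith
      nlinarith
    have hτR : θ ^ 2 * τ ^ 2 ≤ R := by
      have : 3 / 4 * (θ ^ 2 * τ ^ 2) ≤ Λ := by rw [hΛ]; linarith
      linarith
    have h2 : c * (p ^ 2 * (1 + ‖η‖ ^ 2)) ≤ R ^ 2 := by
      have h0 : 0 ≤ 4 * Real.pi ^ 2 * η ^ 2 := by positivity
      have h3 : θ ^ 2 * p ^ 2 ≤ R := by linarith [hR]
      have h4 : min (θ ^ 2 / 4) 1 * (1 + ‖η‖ ^ 2) ≤ R := by
        rw [hηn, hR]
        have h5 : min (θ ^ 2 / 4) 1 ≤ θ ^ 2 * p ^ 2 := by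
          refine (min_le_left _ _).trans ?_
          have := mul_le_mul_of_nonneg_left hp2 hθ2.le
          linarith
        have h6 : min (θ ^ 2 / 4) 1 * η ^ 2 ≤ 4 * Real.pi ^ 2 * η ^ 2 := by
          refine mul_le_mul_of_nonneg_right ?_ (sq_nonneg η)
          exact (min_le_right _ _).trans hpi
        rw [mul_add, mul_one]
        linarith
      calc c * (p ^ 2 * (1 + ‖η‖ ^ 2)) = (θ ^ 2 * p ^ 2) * (min (θ ^ 2 / 4) 1 * (1 + ‖η‖ ^ 2)) := by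
            rw [hc]; ring
        _ ≤ R * R := by gcongr
        _ = R ^ 2 := by ring
    have h3 : (1 + (p - 1 / 2) ^ 2 + η ^ 2) ^ (3 / 4 : ℝ) ≤ K ^ (3 / 4 : ℝ) * R ^ (3 / 4 : ℝ) := by
      rw [← Real.mul_rpow hK0.le hR0.le]
      exact Real.rpow_le_rpow hrho0.le hrho (by norm_num)
    have h4 : R ^ (3 / 4 : ℝ) * (R ^ 2)⁻¹ = R ^ (-(1 / 8) : ℝ) * (R ^ 2) ^ (-(9 / 16) : ℝ) := by
      rw [← Real.rpow_natCast R 2, ← Real.rpow_neg hR0.le, ← Real.rpow_mul hR0.le,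
        ← Real.rpow_add hR0, ← Real.rpow_add hR0]
      norm_num
    have h5 : R ^ (-(1 / 8) : ℝ) ≤ θ ^ (-(1 / 4) : ℝ) * τ ^ (-(1 / 4) : ℝ) := by
      have e : θ ^ (-(1 / 4) : ℝ) * τ ^ (-(1 / 4) : ℝ) = (θ ^ 2 * τ ^ 2) ^ (-(1 / 8) : ℝ) := by
        rw [← Real.mul_rpow hθ.le hτ0.le, ← mul_pow, ← Real.rpow_natCast (θ * τ) 2,
          ← Real.rpow_mul (by positivity)]
        norm_num
      rw [e]
      exact Real.rpow_le_rpow_of_nonpos hτ2 hτR (by norm_num)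
    have h6 : (R ^ 2) ^ (-(9 / 16) : ℝ) ≤
        c ^ (-(9 / 16) : ℝ) * (|p| ^ (-(9 / 8) : ℝ) * (1 + ‖η‖ ^ 2) ^ (-(9 / 8 : ℝ) / 2)) := by
      have e : c ^ (-(9 / 16) : ℝ) * (|p| ^ (-(9 / 8) : ℝ) * (1 + ‖η‖ ^ 2) ^ (-(9 / 8 : ℝ) / 2)) =
          (c * (p ^ 2 * (1 + ‖η‖ ^ 2))) ^ (-(9 / 16) : ℝ) := by
        rw [Real.mul_rpow hc0.le (by positivity), Real.mul_rpow (by positivity) hw0.le]
        congr 2
        · rw [← sq_abs, ← Real.rpow_natCast |p| 2, ← Real.rpow_mul hp0.le]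
          norm_num
        · norm_num
      rw [e]
      exact Real.rpow_le_rpow_of_nonpos (by positivity) h2 (by norm_num)
    have hsecond : 0 ≤ ((5 * K * θ ^ 2) ^ (3 / 4 : ℝ) * 3 ^ (1 / 8 : ℝ)) * τ ^ (13 / 8 : ℝ) *
          |p| ^ (-(1 / 8) : ℝ) * S⁻¹ := by positivity
    refine le_trans ?_ (le_add_of_nonneg_right hsecond)
    calc (1 + (p - 1 / 2) ^ 2 + η ^ 2) ^ (3 / 4 : ℝ) / S
        ≤ (K ^ (3 / 4 : ℝ) * R ^ (3 / 4 : ℝ)) / (9 / 16 * R ^ 2) := by gcongr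
      _ = 16 / 9 * K ^ (3 / 4 : ℝ) * (R ^ (3 / 4 : ℝ) * (R ^ 2)⁻¹) := by
          rw [div_eq_mul_inv, mul_inv]; norm_num; ring
      _ = 16 / 9 * K ^ (3 / 4 : ℝ) * (R ^ (-(1 / 8) : ℝ) * (R ^ 2) ^ (-(9 / 16) : ℝ)) := by rw [h4]
      _ ≤ 16 / 9 * K ^ (3 / 4 : ℝ) * ((θ ^ (-(1 / 4) : ℝ) * τ ^ (-(1 / 4) : ℝ)) *
            (c ^ (-(9 / 16) : ℝ) * (|p| ^ (-(9 / 8) : ℝ) * (1 + ‖η‖ ^ 2) ^ (-(9 / 8 : ℝ) / 2)))) := by
          gcongr
      _ = _ := by ring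
  · -- near
    have hR5 : R ≤ 5 * θ ^ 2 * τ ^ 2 := by
      have : Λ ≤ 5 / 4 * (θ ^ 2 * τ ^ 2) := by rw [hΛ]; linarith
      linarith
    have hp3 : |p| ≤ 3 * τ := by
      have h1 : θ ^ 2 * p ^ 2 ≤ 5 * θ ^ 2 * τ ^ 2 := by
        refine le_trans ?_ hR5
        have h0 : 0 ≤ 4 * Real.pi ^ 2 * η ^ 2 := by positivity
        linarith [hR]
      have h2 : p ^ 2 ≤ 5 * τ ^ 2 := by
        refine le_of_mul_le_mul_left ?_ hθ2
        calc θ ^ 2 * p ^ 2 ≤ 5 * θ ^ 2 * τ ^ 2 := h1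
          _ = θ ^ 2 * (5 * τ ^ 2) := by ring
      have h3 : p ^ 2 ≤ (3 * τ) ^ 2 := by
        rw [mul_pow]
        have : 0 ≤ τ ^ 2 := sq_nonneg τ
        linarith
      exact abs_le_of_sq_le_sq h3 (by positivity)
    have h3 : (1 + (p - 1 / 2) ^ 2 + η ^ 2) ^ (3 / 4 : ℝ) ≤
        (5 * K * θ ^ 2) ^ (3 / 4 : ℝ) * τ ^ (3 / 2 : ℝ) := by
      have e : (5 * K * θ ^ 2) ^ (3 / 4 : ℝ) * τ ^ (3 / 2 : ℝ) =
          ((5 * K * θ ^ 2) * τ ^ 2) ^ (3 / 4 : ℝ) := by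
        rw [Real.mul_rpow (x := 5 * K * θ ^ 2) (y := τ ^ 2) (by positivity) (by positivity),
          ← Real.rpow_natCast τ 2, ← Real.rpow_mul hτ0.le]
        norm_num
      rw [e]
      refine Real.rpow_le_rpow hrho0.le (hrho.trans ?_) (by norm_num)
      calc K * R ≤ K * (5 * θ ^ 2 * τ ^ 2) := by gcongr
        _ = _ := by ring
    have h4 : 1 ≤ 3 ^ (1 / 8 : ℝ) * τ ^ (1 / 8 : ℝ) * |p| ^ (-(1 / 8) : ℝ) := by
      rw [← Real.mul_rpow (by norm_num) hτ0.le, Real.rpow_neg hp0.le, ← div_eq_mul_inv,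
        ← Real.div_rpow (by positivity) hp0.le]
      refine Real.one_le_rpow ?_ (by norm_num)
      rw [one_le_div hp0]
      exact hp3
    have h5 : τ ^ (13 / 8 : ℝ) = τ ^ (3 / 2 : ℝ) * τ ^ (1 / 8 : ℝ) := by
      rw [← Real.rpow_add hτ0]; norm_num
    have hfirst : 0 ≤ (16 / 9 * K ^ (3 / 4 : ℝ) * θ ^ (-(1 / 4) : ℝ) *
          c ^ (-(9 / 16) : ℝ)) * τ ^ (-(1 / 4) : ℝ) *
          |p| ^ (-(9 / 8) : ℝ) * (1 + ‖η‖ ^ 2) ^ (-(9 / 8 : ℝ) / 2) := by positivity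
    refine le_trans ?_ (le_add_of_nonneg_left hfirst)
    calc (1 + (p - 1 / 2) ^ 2 + η ^ 2) ^ (3 / 4 : ℝ) / S
        ≤ ((5 * K * θ ^ 2) ^ (3 / 4 : ℝ) * τ ^ (3 / 2 : ℝ)) / S := by gcongr
      _ = ((5 * K * θ ^ 2) ^ (3 / 4 : ℝ) * τ ^ (3 / 2 : ℝ)) * 1 * S⁻¹ := by
          rw [div_eq_mul_inv, mul_one]
      _ ≤ ((5 * K * θ ^ 2) ^ (3 / 4 : ℝ) * τ ^ (3 / 2 : ℝ)) *
            (3 ^ (1 / 8 : ℝ) * τ ^ (1 / 8 : ℝ) * |p| ^ (-(1 / 8) : ℝ)) * S⁻¹ := by gcongr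
      _ = _ := by rw [h5]; ring

theorem symb (θ lam τ η : ℝ) (n : ℤ) :
    ‖(θ : ℂ) ^ 2 * ((1 / 2 : ℂ) + Complex.I * τ + n) ^ 2 + 4 * Real.pi ^ 2 * η ^ 2 - lam‖ ^ 2 =
      (4 * Real.pi ^ 2 * η ^ 2 - (θ ^ 2 * τ ^ 2 + lam - θ ^ 2 * ((n : ℝ) + 1 / 2) ^ 2)) ^ 2 +
          (2 * θ ^ 2 * τ * |(n : ℝ) + 1 / 2|) ^ 2 := by
  have e : (θ : ℂ) ^ 2 * ((1 / 2 : ℂ) + Complex.I * τ + n) ^ 2 + 4 * Real.pi ^ 2 * η ^ 2 - lam =
      ((4 * Real.pi ^ 2 * η ^ 2 - (θ ^ 2 * τ ^ 2 + lam - θ ^ 2 * ((n : ℝ) + 1 / 2) ^ 2) : ℝ) : ℂ) +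
        ((2 * θ ^ 2 * τ * ((n : ℝ) + 1 / 2) : ℝ) : ℂ) * Complex.I := by
    push_cast
    have : (Complex.I : ℂ) ^ 2 = -1 := Complex.I_sq
    linear_combination ((θ : ℂ) ^ 2 * τ ^ 2) * this
  rw [e, Complex.sq_norm, Complex.normSq_add_mul_I]
  congr 1
  rw [mul_pow _ ((n : ℝ) + 1 / 2), mul_pow _ |(n : ℝ) + 1 / 2|, sq_abs]

theorem t_Decay : Pool.Agent.U37.LC.JobDecay := by
  intro θ lam hθ
  have hw : Integrable (fun η : ℝ => ((1 : ℝ) + ‖η‖ ^ 2) ^ (-(9 / 8 : ℝ) / 2)) :=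
    integrable_rpow_neg_one_add_norm_sq (by simp; norm_num)
  set W := ∫ η : ℝ, ((1 : ℝ) + ‖η‖ ^ 2) ^ (-(9 / 8 : ℝ) / 2) with hW
  have hW0 : 0 ≤ W := integral_nonneg fun η => by positivity
  have hWL : ∫⁻ η : ℝ, ENNReal.ofReal (((1 : ℝ) + ‖η‖ ^ 2) ^ (-(9 / 8 : ℝ) / 2)) =
      ENNReal.ofReal W := by
    rw [hW, ofReal_integral_eq_lintegral_ofReal hw (ae_of_all _ fun η => by positivity)]
  set A := 16 / 9 * (8 / θ ^ 2 + 1) ^ (3 / 4 : ℝ) * θ ^ (-(1 / 4) : ℝ) *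
          (θ ^ 2 * min (θ ^ 2 / 4) 1) ^ (-(9 / 16) : ℝ) with hA
  set B := (5 * (8 / θ ^ 2 + 1) * θ ^ 2) ^ (3 / 4 : ℝ) * (3 : ℝ) ^ (1 / 8 : ℝ) with hB
  have hA0 : 0 ≤ A := by positivity
  have hB0 : 0 ≤ B := by positivity
  set D := A * W + B * (3 / θ ^ 3) with hD
  have hD0 : 0 ≤ D := by positivity
  have hp : ∀ n : ℤ, 1 / 2 ≤ |(n : ℝ) + 1 / 2| := by
    intro n
    rcases le_or_gt 0 n with h | h
    · have : (0 : ℝ) ≤ n := by exact_mod_cast h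
      rw [abs_of_nonneg (by linarith)]; linarith
    · have : (n : ℝ) ≤ -1 := by exact_mod_cast (by omega : n ≤ -1)
      rw [abs_of_nonpos (by linarith)]; linarith
  -- the bound for one n
  have one : ∀ τ : ℝ, 1 ≤ τ → |lam| ≤ θ ^ 2 * τ ^ 2 / 4 → ∀ n : ℤ,
      ∫⁻ η : ℝ, ENNReal.ofReal (Pool.Agent.U37.LC.rho n η ^ (3 / 4 : ℝ) /
        ‖(θ : ℂ) ^ 2 * ((1 / 2 : ℂ) + Complex.I * τ + n) ^ 2 + 4 * Real.pi ^ 2 * η ^ 2 - lam‖ ^ 2) ≤
      ENNReal.ofReal (D * τ ^ (-(1 / 4) : ℝ)) *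
        ENNReal.ofReal (|(n : ℝ) + 1 / 2| ^ (-(9 / 8) : ℝ)) := by
    intro τ hτ hlam n
    have hτ0 : 0 < τ := by linarith
    set p := (n : ℝ) + 1 / 2 with hpdef
    have hpn := hp n
    rw [← hpdef] at hpn
    have hp0 : 0 < |p| := by linarith
    obtain ⟨hl1, hl2⟩ := abs_le.1 hlam
    have hN : 0 < 2 * θ ^ 2 * τ * |p| := by positivity
    have hq := quart (θ ^ 2 * τ ^ 2 + lam - θ ^ 2 * p ^ 2) hN
    have hmax : (θ * τ / 2) ^ 2 ≤ max (θ ^ 2 * τ ^ 2 + lam - θ ^ 2 * p ^ 2) (2 * θ ^ 2 * τ * |p|) := by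
      rcases le_total |p| (τ / 2) with h | h
      · refine le_trans ?_ (le_max_left _ _)
        have h2 : p ^ 2 ≤ (τ / 2) ^ 2 := by
          rw [← sq_abs p]; gcongr
        have h3 : θ ^ 2 * p ^ 2 ≤ θ ^ 2 * (τ / 2) ^ 2 := by gcongr
        nlinarith [mul_pos (pow_pos hθ 2) (pow_pos hτ0 2)]
      · refine le_trans ?_ (le_max_right _ _)
        have h3 : θ ^ 2 * τ * (τ / 2) ≤ θ ^ 2 * τ * |p| := by gcongr
        nlinarith [mul_pos (pow_pos hθ 2) (pow_pos hτ0 2)]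
    have hsq : θ * τ / 2 ≤ √(max (θ ^ 2 * τ ^ 2 + lam - θ ^ 2 * p ^ 2) (2 * θ ^ 2 * τ * |p|)) :=
      Real.le_sqrt_of_sq_le hmax
    have hq2 : ∫⁻ η : ℝ, ENNReal.ofReal (((4 * Real.pi ^ 2 * η ^ 2 -
        (θ ^ 2 * τ ^ 2 + lam - θ ^ 2 * p ^ 2)) ^ 2 + (2 * θ ^ 2 * τ * |p|) ^ 2)⁻¹) ≤
        ENNReal.ofReal (3 / (θ ^ 3 * τ ^ 2 * |p|)) := by
      refine hq.trans (ENNReal.ofReal_le_ofReal ?_)
      calc 3 / (2 * θ ^ 2 * τ * |p| *
            √(max (θ ^ 2 * τ ^ 2 + lam - θ ^ 2 * p ^ 2) (2 * θ ^ 2 * τ * |p|)))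
          ≤ 3 / (2 * θ ^ 2 * τ * |p| * (θ * τ / 2)) := by gcongr
        _ = 3 / (θ ^ 3 * τ ^ 2 * |p|) := by congr 1; ring
    calc ∫⁻ η : ℝ, ENNReal.ofReal (Pool.Agent.U37.LC.rho n η ^ (3 / 4 : ℝ) /
        ‖(θ : ℂ) ^ 2 * ((1 / 2 : ℂ) + Complex.I * τ + n) ^ 2 + 4 * Real.pi ^ 2 * η ^ 2 - lam‖ ^ 2)
        ≤ ∫⁻ η : ℝ, (ENNReal.ofReal (A * τ ^ (-(1 / 4) : ℝ) * |p| ^ (-(9 / 8) : ℝ)) *
            ENNReal.ofReal ((1 + ‖η‖ ^ 2) ^ (-(9 / 8 : ℝ) / 2)) +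
            ENNReal.ofReal (B * τ ^ (13 / 8 : ℝ) * |p| ^ (-(1 / 8) : ℝ)) *
            ENNReal.ofReal (((4 * Real.pi ^ 2 * η ^ 2 -
              (θ ^ 2 * τ ^ 2 + lam - θ ^ 2 * p ^ 2)) ^ 2 + (2 * θ ^ 2 * τ * |p|) ^ 2)⁻¹)) := by
          refine lintegral_mono fun η => ?_
          have h := ptw (η := η) hθ hτ hlam hpn
          rw [← ENNReal.ofReal_mul (by positivity), ← ENNReal.ofReal_mul (by positivity),
            ← ENNReal.ofReal_add (by positivity) (by positivity)]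
          refine ENNReal.ofReal_le_ofReal ?_
          rw [symb]
          refine le_trans (le_of_eq ?_) h
          congr 2
          unfold Pool.Agent.U37.LC.rho
          rw [hpdef]
          ring
      _ = ENNReal.ofReal (A * τ ^ (-(1 / 4) : ℝ) * |p| ^ (-(9 / 8) : ℝ)) * ENNReal.ofReal W +
            ENNReal.ofReal (B * τ ^ (13 / 8 : ℝ) * |p| ^ (-(1 / 8) : ℝ)) *
            ∫⁻ η : ℝ, ENNReal.ofReal (((4 * Real.pi ^ 2 * η ^ 2 -
              (θ ^ 2 * τ ^ 2 + lam - θ ^ 2 * p ^ 2)) ^ 2 + (2 * θ ^ 2 * τ * |p|) ^ 2)⁻¹) := by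
          rw [lintegral_add_left (by fun_prop), lintegral_const_mul' _ _ ENNReal.ofReal_ne_top,
            lintegral_const_mul' _ _ ENNReal.ofReal_ne_top, hWL]
      _ ≤ ENNReal.ofReal (A * τ ^ (-(1 / 4) : ℝ) * |p| ^ (-(9 / 8) : ℝ)) * ENNReal.ofReal W +
            ENNReal.ofReal (B * τ ^ (13 / 8 : ℝ) * |p| ^ (-(1 / 8) : ℝ)) *
            ENNReal.ofReal (3 / (θ ^ 3 * τ ^ 2 * |p|)) := by gcongr
      _ ≤ _ := by
          rw [← ENNReal.ofReal_mul (by positivity), ← ENNReal.ofReal_mul (by positivity),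
            ← ENNReal.ofReal_mul (by positivity), ← ENNReal.ofReal_add (by positivity) (by positivity)]
          refine ENNReal.ofReal_le_ofReal ?_
          have e1 : B * τ ^ (13 / 8 : ℝ) * |p| ^ (-(1 / 8) : ℝ) * (3 / (θ ^ 3 * τ ^ 2 * |p|)) =
              B * (3 / θ ^ 3) * τ ^ (-(3 / 8) : ℝ) * |p| ^ (-(9 / 8) : ℝ) := by
            have e2 : τ ^ (-(3 / 8) : ℝ) = τ ^ (13 / 8 : ℝ) * (τ ^ 2)⁻¹ := by
              rw [← Real.rpow_natCast τ 2, ← Real.rpow_neg hτ0.le, ← Real.rpow_add hτ0]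
              norm_num
            have e3 : |p| ^ (-(9 / 8) : ℝ) = |p| ^ (-(1 / 8) : ℝ) * (|p|)⁻¹ := by
              rw [← Real.rpow_neg_one |p|, ← Real.rpow_add hp0]
              norm_num
            rw [e2, e3]
            field_simp
          have e4 : τ ^ (-(3 / 8) : ℝ) ≤ τ ^ (-(1 / 4) : ℝ) :=
            Real.rpow_le_rpow_of_exponent_le hτ (by norm_num)
          rw [e1, hD]
          have e5 : B * (3 / θ ^ 3) * τ ^ (-(3 / 8) : ℝ) * |p| ^ (-(9 / 8) : ℝ) ≤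
              B * (3 / θ ^ 3) * τ ^ (-(1 / 4) : ℝ) * |p| ^ (-(9 / 8) : ℝ) := by gcongr
          calc _ ≤ A * τ ^ (-(1 / 4) : ℝ) * |p| ^ (-(9 / 8) : ℝ) * W +
                B * (3 / θ ^ 3) * τ ^ (-(1 / 4) : ℝ) * |p| ^ (-(9 / 8) : ℝ) := by gcongr
            _ = _ := by ring
  -- summation
  have hsum : Summable (fun n : ℤ => |(n : ℝ) + 1 / 2| ^ (-(9 / 8) : ℝ)) := by
    have h := (Real.summable_one_div_int_add_rpow (1 / 2) (9 / 8)).2 (by norm_num)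
    refine h.congr fun n => ?_
    rw [Real.rpow_neg (abs_nonneg _), one_div]
  have hZ : ∑' n : ℤ, ENNReal.ofReal (|(n : ℝ) + 1 / 2| ^ (-(9 / 8) : ℝ)) ≠ ⊤ :=
    hsum.tsum_ofReal_ne_top
  have hlim : Tendsto (fun τ : ℝ => ENNReal.ofReal (D * τ ^ (-(1 / 4) : ℝ)) *
      ∑' n : ℤ, ENNReal.ofReal (|(n : ℝ) + 1 / 2| ^ (-(9 / 8) : ℝ))) atTop (𝓝 0) := by
    have h1 : Tendsto (fun τ : ℝ => D * τ ^ (-(1 / 4) : ℝ)) atTop (𝓝 (D * 0)) :=
      (tendsto_rpow_neg_atTop (by norm_num)).const_mul D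
    have h2 := ENNReal.tendsto_ofReal h1
    rw [mul_zero, ENNReal.ofReal_zero] at h2
    have h3 := ENNReal.Tendsto.mul_const (b := ∑' n : ℤ,
      ENNReal.ofReal (|(n : ℝ) + 1 / 2| ^ (-(9 / 8) : ℝ))) h2 (Or.inr hZ)
    rwa [zero_mul] at h3
  refine tendsto_of_tendsto_of_tendsto_of_le_of_le' tendsto_const_nhds hlim
    (Eventually.of_forall fun _ => bot_le) ?_
  have hev : ∀ᶠ τ : ℝ in atTop, |lam| ≤ θ ^ 2 * τ ^ 2 / 4 := by
    have h1 : Tendsto (fun τ : ℝ => θ ^ 2 * τ ^ 2 / 4) atTop atTop := by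
      have h2 : Tendsto (fun τ : ℝ => τ ^ 2) atTop atTop := tendsto_pow_atTop (by norm_num)
      have h3 : Tendsto (fun τ : ℝ => (θ ^ 2 / 4) * τ ^ 2) atTop atTop :=
        h2.const_mul_atTop (by positivity)
      refine h3.congr fun τ => by ring
    exact h1.eventually_ge_atTop _
  filter_upwards [hev, eventually_ge_atTop (1 : ℝ)] with τ h1 h2
  rw [← ENNReal.tsum_mul_left]
  exact ENNReal.tsum_le_tsum fun n => one τ h2 h1 n

end Pool.Agent.U324.LC
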