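import Mathlib
import Pool.Agent.U37.LC.Stm3

/-!
Project LC, job Energy.
-/

set_option autoImplicit false

open MeasureTheory Filter Topology Set Complex
open scoped ComplexConjugate InnerProductSpace

namespace Pool.Agent.U324.LC

section
variable {L : ℝ} {x y : ℝ → ℝ} {m : ℤ} {τ : ℝ}

noncomputable def KA (x y : ℝ → ℝ) (m : ℤ) (τ s t : ℝ) : ℂ :=
  cexp (2 * Real.pi * I * (m * (x s - x t))) *
      (cexp (-(-I * τ) * (|y s - y t| : ℝ)) / (2 * (-I * τ)))

noncomputable def KB (x y : ℝ → ℝ) (m : ℤ) (τ s t : ℝ) : ℂ :=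
  cexp (2 * Real.pi * I * (m * (x s - x t))) *
      (cexp (-(I * τ) * (|y s - y t| : ℝ)) / (2 * (I * τ)))

noncomputable def e1 (x y : ℝ → ℝ) (m : ℤ) (τ s : ℝ) : ℂ :=
  cexp (2 * Real.pi * I * (m * x s) + I * τ * y s)

noncomputable def e2 (x y : ℝ → ℝ) (m : ℤ) (τ s : ℝ) : ℂ :=
  cexp (2 * Real.pi * I * (m * x s) - I * τ * y s)

theorem KA_conj (s t : ℝ) : conj (KA x y m τ s t) = KB x y m τ t s := by
  unfold KA KB
  rw [map_mul, map_div₀, ← Complex.exp_conj, ← Complex.exp_conj, abs_sub_comm (y s) (y t)]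
  congr 2
  · simp only [map_mul, map_sub, conj_ofReal, conj_I, map_ofNat, map_intCast]
    ring
  · congr 1
    simp only [map_mul, map_neg, conj_ofReal, conj_I]
    ring
  · simp only [map_mul, map_neg, conj_ofReal, conj_I, map_ofNat]
    ring

theorem KA_sub (hτ : τ ≠ 0) (s t : ℝ) : KA x y m τ s t - KB x y m τ s t =
    (I / (2 * τ)) * (e1 x y m τ s * conj (e1 x y m τ t) + e2 x y m τ s * conj (e2 x y m τ t)) := by
  unfold KA KB e1 e2
  have hτ' : (τ : ℂ) ≠ 0 := by exact_mod_cast hτ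
  rw [← Complex.exp_conj, ← Complex.exp_conj, ← Complex.exp_add, ← Complex.exp_add]
  have c1 : 2 * Real.pi * I * (m * x s) + I * τ * y s + conj (2 * Real.pi * I * (m * x t) + I * τ * y t) =
      2 * Real.pi * I * (m * (x s - x t)) + I * τ * ((y s : ℂ) - y t) := by
    simp only [map_mul, map_add, conj_ofReal, conj_I, map_ofNat, map_intCast]
    ring
  have c2 : 2 * Real.pi * I * (m * x s) - I * τ * y s + conj (2 * Real.pi * I * (m * x t) - I * τ * y t) =
      2 * Real.pi * I * (m * (x s - x t)) + -(I * τ * ((y s : ℂ) - y t)) := by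
    simp only [map_mul, map_sub, conj_ofReal, conj_I, map_ofNat, map_intCast]
    ring
  rw [c1, c2, Complex.exp_add, Complex.exp_add]
  have habs : cexp (-(-I * τ) * (|y s - y t| : ℝ)) + cexp (-(I * τ) * (|y s - y t| : ℝ)) =
      cexp (I * τ * ((y s : ℂ) - y t)) + cexp (-(I * τ * ((y s : ℂ) - y t))) := by
    rcases le_total 0 (y s - y t) with h | h
    · rw [abs_of_nonneg h]
      push_cast
      congr 1 <;> congr 1 <;> ring
    · rw [abs_of_nonpos h, add_comm]
      push_cast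
      congr 1 <;> congr 1 <;> ring
  have key : cexp (-(-I * τ) * (|y s - y t| : ℝ)) / (2 * (-I * τ)) -
      cexp (-(I * τ) * (|y s - y t| : ℝ)) / (2 * (I * τ)) =
      (I / (2 * τ)) * (cexp (-(-I * τ) * (|y s - y t| : ℝ)) + cexp (-(I * τ) * (|y s - y t| : ℝ))) := by
    have hI : (I : ℂ) ≠ 0 := I_ne_zero
    generalize cexp (-(-I * τ) * (|y s - y t| : ℝ)) = u
    generalize cexp (-(I * τ) * (|y s - y t| : ℝ)) = v
    field_simp
    rw [I_sq]
    ring
  rw [← mul_sub, key, habs]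
  ring

theorem KA_norm (hτ : 0 < τ) (s t : ℝ) : ‖KA x y m τ s t‖ ≤ 1 / (2 * τ) := by
  unfold KA
  rw [norm_mul, norm_div]
  have n1 : ‖cexp (2 * Real.pi * I * (m * (x s - x t)))‖ = 1 := by
    rw [show (2 * Real.pi * I * (m * (x s - x t)) : ℂ) =
      ((2 * Real.pi * (m * (x s - x t)) : ℝ) : ℂ) * I by push_cast; ring]
    exact Complex.norm_exp_ofReal_mul_I _
  have n2 : ‖cexp (-(-I * τ) * (|y s - y t| : ℝ))‖ = 1 := by
    rw [show (-(-I * τ) * (|y s - y t| : ℝ) : ℂ) =
      ((τ * |y s - y t| : ℝ) : ℂ) * I by push_cast; ring]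
    exact Complex.norm_exp_ofReal_mul_I _
  rw [n1, n2, one_mul]
  simp [abs_of_pos hτ]

theorem KA_cont (hx : Continuous x) (hy : Continuous y) :
    Continuous (fun p : ℝ × ℝ => KA x y m τ p.1 p.2) := by
  unfold KA
  refine Continuous.mul (Complex.continuous_exp.comp (by fun_prop)) ?_
  exact Continuous.div_const (Complex.continuous_exp.comp (by fun_prop)) _

theorem e1_cont (hx : Continuous x) (hy : Continuous y) : Continuous (e1 x y m τ) := by
  unfold e1
  exact Complex.continuous_exp.comp (by fun_prop)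

theorem e2_cont (hx : Continuous x) (hy : Continuous y) : Continuous (e2 x y m τ) := by
  unfold e2
  exact Complex.continuous_exp.comp (by fun_prop)

theorem e1_norm (s : ℝ) : ‖e1 x y m τ s‖ = 1 := by
  unfold e1
  rw [show (2 * Real.pi * I * (m * x s) + I * τ * y s : ℂ) =
    ((2 * Real.pi * (m * x s) + τ * y s : ℝ) : ℂ) * I by push_cast; ring]
  exact Complex.norm_exp_ofReal_mul_I _

theorem e2_norm (s : ℝ) : ‖e2 x y m τ s‖ = 1 := by
  unfold e2
  rw [show (2 * Real.pi * I * (m * x s) - I * τ * y s : ℂ) =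
    ((2 * Real.pi * (m * x s) - τ * y s : ℝ) : ℂ) * I by push_cast; ring]
  exact Complex.norm_exp_ofReal_mul_I _

end

theorem jobEnergy : Pool.Agent.U37.LC.JobEnergy := by
  intro L x y hL hx hy m τ hτ A B hA hB g
  set μ := (volume : Measure ℝ).restrict (Ioc (0 : ℝ) L) with hμ
  have hτ0 : τ ≠ 0 := hτ.ne'
  have hI : ∀ f : Pool.Agent.U37.LC.XX L, Integrable (f : ℝ → ℂ) μ := fun f =>
    (Lp.memLp f).integrable (by norm_num)
  have hA' : ∀ a b : Pool.Agent.U37.LC.XX L, ⟪a, A b⟫_ℂ = ∫ s, conj (a s) * ∫ t, KA x y m τ s t * b t ∂μ ∂μ := by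
    intro a b; rw [hA]; rfl
  have hB' : ∀ a b : Pool.Agent.U37.LC.XX L, ⟪a, B b⟫_ℂ = ∫ s, conj (a s) * ∫ t, KB x y m τ s t * b t ∂μ ∂μ := by
    intro a b; rw [hB]; rfl
  have hKBn : ∀ s t, ‖KB x y m τ s t‖ ≤ 1 / (2 * τ) := by
    intro s t
    rw [← KA_conj, Complex.norm_conj]
    exact KA_norm hτ t s
  have hKBc : Continuous (fun p : ℝ × ℝ => KB x y m τ p.1 p.2) := by
    have : (fun p : ℝ × ℝ => KB x y m τ p.1 p.2) = fun p : ℝ × ℝ => conj (KA x y m τ p.2 p.1) := by
      funext p; rw [KA_conj]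
    rw [this]
    exact Complex.continuous_conj.comp ((KA_cont hx hy).comp continuous_swap)
  -- product integrability
  have hprod : ∀ a b : Pool.Agent.U37.LC.XX L, Integrable (fun p : ℝ × ℝ => conj (a p.1) * b p.2) (μ.prod μ) := by
    intro a b
    have h1 : Integrable (fun s => conj (a s)) μ := by
      have := (hI a)
      exact (integrable_norm_iff (Complex.continuous_conj.comp_aestronglyMeasurable this.1)).1
        (by simpa using this.norm)
    exact h1.mul_prod (hI b)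
  have hprodA : ∀ a b : Pool.Agent.U37.LC.XX L,
      Integrable (fun p : ℝ × ℝ => KA x y m τ p.1 p.2 * (conj (a p.1) * b p.2)) (μ.prod μ) := by
    intro a b
    exact (hprod a b).bdd_mul (c := 1 / (2 * τ)) (KA_cont hx hy).aestronglyMeasurable
      (ae_of_all _ fun p => KA_norm hτ p.1 p.2)
  have hprodB : ∀ a b : Pool.Agent.U37.LC.XX L,
      Integrable (fun p : ℝ × ℝ => KB x y m τ p.1 p.2 * (conj (a p.1) * b p.2)) (μ.prod μ) := by
    intro a b
    exact (hprod a b).bdd_mul (c := 1 / (2 * τ)) hKBc.aestronglyMeasurable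
      (ae_of_all _ fun p => hKBn p.1 p.2)
  have hA2 : ∀ a b : Pool.Agent.U37.LC.XX L, ⟪a, A b⟫_ℂ =
      ∫ p : ℝ × ℝ, KA x y m τ p.1 p.2 * (conj (a p.1) * b p.2) ∂(μ.prod μ) := by
    intro a b
    rw [hA', integral_prod _ (hprodA a b)]
    refine integral_congr_ae (ae_of_all _ fun s => ?_)
    simp only
    rw [← integral_const_mul]
    refine integral_congr_ae (ae_of_all _ fun t => ?_)
    simp only
    ring
  have hB2 : ∀ a b : Pool.Agent.U37.LC.XX L, ⟪a, B b⟫_ℂ =
      ∫ p : ℝ × ℝ, KB x y m τ p.1 p.2 * (conj (a p.1) * b p.2) ∂(μ.prod μ) := by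
    intro a b
    rw [hB', integral_prod _ (hprodB a b)]
    refine integral_congr_ae (ae_of_all _ fun s => ?_)
    simp only
    rw [← integral_const_mul]
    refine integral_congr_ae (ae_of_all _ fun t => ?_)
    simp only
    ring
  set F1 : Pool.Agent.U37.LC.XX L → ℂ := fun b => ∫ t, conj (e1 x y m τ t) * b t ∂μ with hF1
  set F2 : Pool.Agent.U37.LC.XX L → ℂ := fun b => ∫ t, conj (e2 x y m τ t) * b t ∂μ with hF2
  have hdiff : ∀ a b : Pool.Agent.U37.LC.XX L, ⟪a, A b⟫_ℂ - ⟪a, B b⟫_ℂ =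
      (I / (2 * τ)) * (conj (F1 a) * F1 b + conj (F2 a) * F2 b) := by
    intro a b
    have hcf : ∀ e : ℝ → ℂ, Continuous e → (∀ s, ‖e s‖ = 1) →
        Integrable (fun p : ℝ × ℝ => (e p.1 * conj (a p.1)) * (conj (e p.2) * b p.2)) (μ.prod μ) ∧
        ∫ p : ℝ × ℝ, (e p.1 * conj (a p.1)) * (conj (e p.2) * b p.2) ∂(μ.prod μ) =
          conj (∫ t, conj (e t) * a t ∂μ) * ∫ t, conj (e t) * b t ∂μ := by
      intro e he hn
      have h1 : Integrable (fun s => conj (e s) * a s) μ :=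
        (hI a).bdd_mul (c := 1) (Complex.continuous_conj.comp he).aestronglyMeasurable
          (ae_of_all _ fun s => by simp [hn])
      have h1' : Integrable (fun s => e s * conj (a s)) μ := by
        have h3 : (fun s => e s * conj (a s)) = fun s => conj (conj (e s) * a s) := by
          funext s; simp
        rw [h3]
        exact (integrable_norm_iff (Complex.continuous_conj.comp_aestronglyMeasurable h1.1)).1
          (by simpa using h1.norm)
      have h2 : Integrable (fun s => conj (e s) * b s) μ :=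
        (hI b).bdd_mul (c := 1) (Complex.continuous_conj.comp he).aestronglyMeasurable
          (ae_of_all _ fun s => by simp [hn])
      refine ⟨h1'.mul_prod h2, ?_⟩
      rw [integral_prod_mul (fun s => e s * conj (a s)) (fun s => conj (e s) * b s)]
      congr 1
      rw [← integral_conj]
      refine integral_congr_ae (ae_of_all _ fun s => ?_)
      simp
    obtain ⟨i1, v1⟩ := hcf (e1 x y m τ) (e1_cont hx hy) e1_norm
    obtain ⟨i2, v2⟩ := hcf (e2 x y m τ) (e2_cont hx hy) e2_norm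
    rw [hA2, hB2, ← integral_sub (hprodA a b) (hprodB a b)]
    simp only [hF1, hF2]
    rw [← v1, ← v2, ← integral_add i1 i2, ← integral_const_mul]
    refine integral_congr_ae (ae_of_all _ fun p => ?_)
    simp only
    rw [← sub_mul, KA_sub hτ0]
    ring
  have hconj : ∀ a b : Pool.Agent.U37.LC.XX L, conj ⟪a, A b⟫_ℂ = ⟪b, B a⟫_ℂ := by
    intro a b
    rw [hA2, hB2, ← integral_conj, ← integral_prod_swap]
    refine integral_congr_ae (ae_of_all _ fun p => ?_)
    simp only [Prod.fst_swap, Prod.snd_swap]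
    rw [map_mul, KA_conj, map_mul, Complex.conj_conj]
    ring
  have him : (((⟪g, A g⟫_ℂ).im : ℝ) : ℂ) = ((1 / (4 * τ) * (‖F1 g‖ ^ 2 + ‖F2 g‖ ^ 2) : ℝ) : ℂ) := by
    have h1 := hdiff g g
    rw [← hconj g g, Complex.sub_conj, Complex.conj_mul', Complex.conj_mul'] at h1
    have h2 : (2 * (⟪g, A g⟫_ℂ).im : ℝ) * I = I * (((1 / (2 * τ)) * (‖F1 g‖ ^ 2 + ‖F2 g‖ ^ 2) : ℝ) : ℂ) := by
      rw [h1]
      push_cast
      ring
    have h3 : ((2 * (⟪g, A g⟫_ℂ).im : ℝ) : ℂ) = (((1 / (2 * τ)) * (‖F1 g‖ ^ 2 + ‖F2 g‖ ^ 2) : ℝ) : ℂ) := by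
      rw [mul_comm I] at h2
      exact mul_right_cancel₀ I_ne_zero h2
    have h4 := Complex.ofReal_injective h3
    congr 1
    have h5 : (⟪g, A g⟫_ℂ).im = (1 / 2) * ((1 / (2 * τ)) * (‖F1 g‖ ^ 2 + ‖F2 g‖ ^ 2)) := by
      rw [← h4]; ring
    rw [h5]
    ring
  have him' := Complex.ofReal_injective him
  refine ⟨by rw [him']; positivity, fun h0 => ?_⟩
  rw [him'] at h0
  have hsum : ‖F1 g‖ ^ 2 + ‖F2 g‖ ^ 2 = 0 := by
    rcases mul_eq_zero.1 h0 with h | h
    · exfalso
      have : 0 < 1 / (4 * τ) := by positivity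
      linarith
    · exact h
  have z1 : F1 g = 0 := by
    have : ‖F1 g‖ ^ 2 = 0 := by nlinarith [sq_nonneg ‖F1 g‖, sq_nonneg ‖F2 g‖]
    simpa using this
  have z2 : F2 g = 0 := by
    have : ‖F2 g‖ ^ 2 = 0 := by nlinarith [sq_nonneg ‖F1 g‖, sq_nonneg ‖F2 g‖]
    simpa using this
  refine ext_inner_left ℂ fun a => ?_
  have := hdiff a g
  rw [z1, z2, mul_zero, mul_zero, add_zero, mul_zero] at this
  exact sub_eq_zero.1 this

end Pool.Agent.U324.LC
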