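import Mathlib
import Pool.Agent.U37.LC.Stm

/-!
Project LC, jobs FT and a Lorentzian lemma.
-/

set_option autoImplicit false

open MeasureTheory Filter Topology Set

namespace Pool.Agent.U324.LC

/-- the Lorentzian integral -/
theorem lor {A B : ℝ} (hA : 0 < A) (hB : 0 < B) (c : ℝ) :
    Integrable (fun η : ℝ => ((A * (η - c)) ^ 2 + B ^ 2)⁻¹) ∧
    ∫ η : ℝ, ((A * (η - c)) ^ 2 + B ^ 2)⁻¹ = Real.pi / (A * B) := by
  have hAB : A / B ≠ 0 := (div_pos hA hB).ne'
  have e : (fun η : ℝ => ((A * (η - c)) ^ 2 + B ^ 2)⁻¹) =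
      fun η : ℝ => (B ^ 2)⁻¹ * (1 + ((A / B) * (η - c)) ^ 2)⁻¹ := by
    funext η
    have h1 : (A * (η - c)) ^ 2 + B ^ 2 = B ^ 2 * (1 + ((A / B) * (η - c)) ^ 2) := by
      field_simp
      ring
    rw [h1, mul_inv]
  have i0 : Integrable (fun x : ℝ => (1 + ((A / B) * x) ^ 2)⁻¹) :=
    integrable_inv_one_add_sq.comp_mul_left' hAB
  have i1 : Integrable (fun η : ℝ => (1 + ((A / B) * (η - c)) ^ 2)⁻¹) := i0.comp_sub_right c
  rw [e]
  refine ⟨i1.const_mul _, ?_⟩
  rw [integral_const_mul, integral_sub_right_eq_self (fun x : ℝ => (1 + ((A / B) * x) ^ 2)⁻¹) c,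
    Measure.integral_comp_mul_left (fun x : ℝ => (1 + x ^ 2)⁻¹) (A / B),
    integral_univ_inv_one_add_sq, abs_of_pos (inv_pos.2 (div_pos hA hB)), smul_eq_mul]
  field_simp

open Complex in
theorem ftInt (β : ℂ) (hβ : 0 < β.re) :
    Integrable (fun η : ℝ => (1 : ℂ) / (β ^ 2 + 4 * Real.pi ^ 2 * η ^ 2)) := by
  have hpi : 0 < 2 * Real.pi := by positivity
  obtain ⟨i1, -⟩ := lor hpi hβ (-(β.im / (2 * Real.pi)))
  obtain ⟨i2, -⟩ := lor hpi hβ (β.im / (2 * Real.pi))
  have hfac : ∀ η : ℝ, β ^ 2 + 4 * Real.pi ^ 2 * (η : ℂ) ^ 2 =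
      (β + 2 * Real.pi * η * I) * (β - 2 * Real.pi * η * I) := by
    intro η
    have : (I : ℂ) ^ 2 = -1 := I_sq
    linear_combination (4 * (Real.pi : ℂ) ^ 2 * η ^ 2) * this
  have n1 : ∀ η : ℝ, ‖β + 2 * Real.pi * η * I‖ ^ 2 =
      (2 * Real.pi * (η - -(β.im / (2 * Real.pi)))) ^ 2 + β.re ^ 2 := by
    intro η
    rw [Complex.sq_norm, Complex.normSq_apply]
    have h1 : (β + 2 * Real.pi * η * I).re = β.re := by simp
    have h2 : (β + 2 * Real.pi * η * I).im = β.im + 2 * Real.pi * η := by simp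
    rw [h1, h2]
    field_simp
    ring
  have n2 : ∀ η : ℝ, ‖β - 2 * Real.pi * η * I‖ ^ 2 =
      (2 * Real.pi * (η - (β.im / (2 * Real.pi)))) ^ 2 + β.re ^ 2 := by
    intro η
    rw [Complex.sq_norm, Complex.normSq_apply]
    have h1 : (β - 2 * Real.pi * η * I).re = β.re := by simp
    have h2 : (β - 2 * Real.pi * η * I).im = β.im - 2 * Real.pi * η := by simp
    rw [h1, h2]
    field_simp
    ring
  have hc : Continuous (fun η : ℝ => (1 : ℂ) / (β ^ 2 + 4 * Real.pi ^ 2 * η ^ 2)) := by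
    refine Continuous.div continuous_const (by fun_prop) ?_
    intro η
    rw [hfac]
    refine mul_ne_zero ?_ ?_
    · intro h
      have := congrArg Complex.re h
      simp at this
      linarith
    · intro h
      have := congrArg Complex.re h
      simp at this
      linarith
  refine ((i1.add i2)).mono' hc.aestronglyMeasurable (ae_of_all _ fun η => ?_)
  simp only [Pi.add_apply]
  rw [← n1, ← n2, hfac, norm_div, norm_one, norm_mul]
  set u := ‖β + 2 * Real.pi * η * I‖
  set v := ‖β - 2 * Real.pi * η * I‖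
  have hu : 0 < u ^ 2 := by rw [n1]; positivity
  have hv : 0 < v ^ 2 := by rw [n2]; positivity
  have hu' : 0 < u := by
    rcases (norm_nonneg (β + 2 * Real.pi * η * I)).eq_or_lt with h | h
    · exfalso; rw [show u = 0 from h.symm] at hu; simp at hu
    · exact h
  have hv' : 0 < v := by
    rcases (norm_nonneg (β - 2 * Real.pi * η * I)).eq_or_lt with h | h
    · exfalso; rw [show v = 0 from h.symm] at hv; simp at hv
    · exact h
  have key : 1 / (u * v) = u⁻¹ * v⁻¹ := by rw [one_div, mul_inv]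
  rw [key]
  have e1 : (u ^ 2)⁻¹ = (u⁻¹) ^ 2 := by rw [inv_pow]
  have e2 : (v ^ 2)⁻¹ = (v⁻¹) ^ 2 := by rw [inv_pow]
  rw [e1, e2]
  nlinarith [sq_nonneg (u⁻¹ - v⁻¹), inv_pos.2 hu', inv_pos.2 hv']

open Complex FourierTransform in
theorem t_FT : Pool.Agent.U37.LC.JobFT := by
  intro β y hβ
  have hβ0 : β ≠ 0 := by rintro rfl; simp at hβ
  set f : ℝ → ℂ := fun v => cexp (-β * |v|) / (2 * β) with hf
  have hfc : Continuous f := by
    refine Continuous.div_const ?_ _
    exact Complex.continuous_exp.comp (by fun_prop)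
  have hG := ftInt β hβ
  have hexp : ∀ η : ℝ, ‖cexp (2 * Real.pi * I * (η * y))‖ = 1 := by
    intro η
    rw [show (2 * Real.pi * I * (η * y) : ℂ) = ((2 * Real.pi * (η * y) : ℝ) : ℂ) * I by
      push_cast; ring]
    exact Complex.norm_exp_ofReal_mul_I _
  -- the two half lines
  have a1 : ∀ η : ℝ, (0 : ℝ) < (β - 2 * Real.pi * η * I).re := by intro η; simpa using hβ
  have a2 : ∀ η : ℝ, (-(β + 2 * Real.pi * η * I)).re < 0 := by intro η; simpa using hβ
  have e1 : ∀ η : ℝ, EqOn (fun v : ℝ => cexp (((-2 * Real.pi * v * η : ℝ) : ℂ) * I) • f v)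
      (fun v : ℝ => cexp ((β - 2 * Real.pi * η * I) * v) / (2 * β)) (Iic 0) := by
    intro η v hv
    simp only [hf, smul_eq_mul]
    rw [abs_of_nonpos (show v ≤ 0 from hv), ← mul_div_assoc, ← Complex.exp_add]
    congr 2
    push_cast
    ring
  have e2 : ∀ η : ℝ, EqOn (fun v : ℝ => cexp (((-2 * Real.pi * v * η : ℝ) : ℂ) * I) • f v)
      (fun v : ℝ => cexp (-(β + 2 * Real.pi * η * I) * v) / (2 * β)) (Ioi 0) := by
    intro η v hv
    simp only [hf, smul_eq_mul]
    rw [abs_of_pos (show 0 < v from hv), ← mul_div_assoc, ← Complex.exp_add]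
    congr 2
    push_cast
    ring
  have j1 : ∀ η : ℝ, IntegrableOn
      (fun v : ℝ => cexp (((-2 * Real.pi * v * η : ℝ) : ℂ) * I) • f v) (Iic 0) := by
    intro η
    refine IntegrableOn.congr_fun ?_ (e1 η).symm measurableSet_Iic
    exact (integrableOn_exp_mul_complex_Iic (a1 η) 0).div_const _
  have j2 : ∀ η : ℝ, IntegrableOn
      (fun v : ℝ => cexp (((-2 * Real.pi * v * η : ℝ) : ℂ) * I) • f v) (Ioi 0) := by
    intro η
    refine IntegrableOn.congr_fun ?_ (e2 η).symm measurableSet_Ioi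
    exact (integrableOn_exp_mul_complex_Ioi (a2 η) 0).div_const _
  have hfi : Integrable f := by
    have h1 := (j1 0).union (j2 0)
    rw [Iic_union_Ioi, integrableOn_univ] at h1
    refine h1.congr (ae_of_all _ fun v => ?_)
    simp
  have hF : 𝓕 f = fun η : ℝ => (1 : ℂ) / (β ^ 2 + 4 * Real.pi ^ 2 * η ^ 2) := by
    funext η
    rw [Real.fourier_real_eq_integral_exp_smul, ← intervalIntegral.integral_Iic_add_Ioi (j1 η) (j2 η),
      setIntegral_congr_fun measurableSet_Iic (e1 η), setIntegral_congr_fun measurableSet_Ioi (e2 η),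
      integral_div, integral_div, integral_exp_mul_complex_Iic (a1 η), integral_exp_mul_complex_Ioi (a2 η)]
    have z1 : β - 2 * Real.pi * η * I ≠ 0 := by
      intro h; have := a1 η; rw [h] at this; simp at this
    have z2 : β + 2 * Real.pi * η * I ≠ 0 := by
      intro h; have := a2 η; rw [h] at this; simp at this
    have hfac : β ^ 2 + 4 * Real.pi ^ 2 * (η : ℂ) ^ 2 =
        (β + 2 * Real.pi * η * I) * (β - 2 * Real.pi * η * I) := by
      have : (I : ℂ) ^ 2 = -1 := I_sq
      linear_combination (4 * (Real.pi : ℂ) ^ 2 * η ^ 2) * this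
    rw [hfac]
    simp only [ofReal_zero, mul_zero, Complex.exp_zero]
    field_simp
    ring
  have hinv := hfc.fourierInv_fourier_eq hfi (by rw [hF]; exact hG)
  refine ⟨?_, ?_⟩
  · refine (hG.norm).mono' ?_ (ae_of_all _ fun η => ?_)
    · have : (fun η : ℝ => cexp (2 * Real.pi * I * (η * y)) / (β ^ 2 + 4 * Real.pi ^ 2 * η ^ 2)) =
          fun η : ℝ => cexp (2 * Real.pi * I * (η * y)) *
            (1 / (β ^ 2 + 4 * Real.pi ^ 2 * η ^ 2)) := by
        funext η; rw [mul_one_div]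
      rw [this]
      refine AEStronglyMeasurable.mul ?_ hG.aestronglyMeasurable
      exact (by fun_prop : Continuous fun η : ℝ => cexp (2 * Real.pi * I * (η * y))).aestronglyMeasurable
    · rw [norm_div, norm_div, hexp, norm_one]
  · have h1 := congrFun hinv y
    rw [Real.fourierInv_eq', hF] at h1
    simp only [hf] at h1
    rw [← h1]
    refine integral_congr_ae (ae_of_all _ fun η => ?_)
    simp only [smul_eq_mul, mul_one_div]
    congr 2
    simp only [RCLike.inner_apply, conj_trivial]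
    push_cast
    ring

end Pool.Agent.U324.LC
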