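import Mathlib
import Pool.Agent.U37.LC.Stm2

/-!
Project LC, job Section.
-/

set_option autoImplicit false

open MeasureTheory Filter Topology Set

namespace Pool.Agent.U324.LC

theorem thr {θ : ℝ} (hθ : 0 < θ) (n : ℤ) {E : Set ℝ} (hE : volume E = 0) :
    volume {k : ℝ | θ ^ 2 * (k + n) ^ 2 ∈ E} = 0 := by
  have hE' : volume (E \ {0}) = 0 := measure_mono_null sdiff_subset hE
  have hd : ∀ σ : ℝ, volume ((fun l : ℝ => -(n : ℝ) + σ * (√l / θ)) '' (E \ {0})) = 0 := by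
    intro σ
    refine addHaar_image_eq_zero_of_differentiableOn_of_addHaar_eq_zero volume ?_ hE'
    intro l hl
    have h0 : l ≠ 0 := fun h => hl.2 h
    have h1 : DifferentiableAt ℝ (fun l : ℝ => √l) l := (Real.hasDerivAt_sqrt h0).differentiableAt
    exact (((h1.div_const θ).const_mul σ).const_add (-(n : ℝ))).differentiableWithinAt
  refine measure_mono_null (t := {-(n : ℝ)} ∪
    (((fun l : ℝ => -(n : ℝ) + 1 * (√l / θ)) '' (E \ {0})) ∪
      ((fun l : ℝ => -(n : ℝ) + (-1) * (√l / θ)) '' (E \ {0})))) ?_ ?_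
  · intro k hk
    by_cases h : k = -(n : ℝ)
    · exact Or.inl h
    · right
      have hkn : k + n ≠ 0 := fun h' => h (by linarith)
      have hne : θ ^ 2 * (k + n) ^ 2 ≠ 0 := mul_ne_zero (pow_ne_zero _ hθ.ne') (pow_ne_zero _ hkn)
      have hs : √(θ ^ 2 * (k + n) ^ 2) / θ = |k + n| := by
        rw [← mul_pow, Real.sqrt_sq_eq_abs, abs_mul, abs_of_pos hθ]
        field_simp
      rcases le_total 0 (k + n) with h1 | h1
      · left
        refine ⟨θ ^ 2 * (k + n) ^ 2, ⟨hk, hne⟩, ?_⟩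
        simp only
        rw [hs, abs_of_nonneg h1]
        ring
      · right
        refine ⟨θ ^ 2 * (k + n) ^ 2, ⟨hk, hne⟩, ?_⟩
        simp only
        rw [hs, abs_of_nonpos h1]
        ring
  · refine measure_union_null (by simp) (measure_union_null (hd 1) (hd (-1)))

theorem jobSection : Pool.Agent.U37.LC.JobSection := by
  intro θ hθ P hP E hE
  set G : Set (ℝ × ℝ) := {p | 0 < p.2 ∧ p.2 < 1 ∧ ∀ n : ℤ, θ ^ 2 * (p.2 + n) ^ 2 ≠ p.1} with hG
  have hch : ∀ p : ℝ × ℝ, ∃ O : Set (ℝ × ℝ), p ∈ G → O ∈ 𝓝 p ∧ ∀ E : Set ℝ, volume E = 0 →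
      volume {k : ℝ | ∃ l ∈ E, (l, k) ∈ O ∧ ¬ P l k} = 0 := by
    intro p
    by_cases hp : p ∈ G
    · obtain ⟨O, h1, h2⟩ := hP p.1 p.2 hp.1 hp.2.1 hp.2.2
      exact ⟨O, fun _ => ⟨h1, h2⟩⟩
    · exact ⟨∅, fun h => absurd h hp⟩
  choose O hO using hch
  obtain ⟨t, htG, htc, hcov⟩ := TopologicalSpace.countable_cover_nhdsWithin
    (f := O) (s := G) (fun p hp => mem_nhdsWithin_of_mem_nhds (hO p hp).1)
  refine measure_mono_null (t := (⋃ p ∈ t, {k : ℝ | ∃ l ∈ E, (l, k) ∈ O p ∧ ¬ P l k}) ∪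
    ⋃ n : ℤ, {k : ℝ | θ ^ 2 * (k + n) ^ 2 ∈ E}) ?_ ?_
  · rintro k ⟨h0, h1, l, hl, hPl⟩
    by_cases h : ∀ n : ℤ, θ ^ 2 * (k + n) ^ 2 ≠ l
    · left
      have hmem : (l, k) ∈ G := ⟨h0, h1, h⟩
      obtain ⟨p, hp, hpO⟩ := mem_iUnion₂.1 (hcov hmem)
      exact mem_iUnion₂.2 ⟨p, hp, l, hl, hpO, hPl⟩
    · right
      push Not at h
      obtain ⟨n, hn⟩ := h
      refine mem_iUnion.2 ⟨n, ?_⟩
      rw [mem_ofPred_eq, hn]
      exact hl
  · refine measure_union_null ?_ ?_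
    · rw [measure_biUnion_null_iff htc]
      intro p hp
      exact (hO p (htG hp)).2 E hE
    · rw [measure_iUnion_null_iff]
      intro n
      exact thr hθ n hE

end Pool.Agent.U324.LC
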